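import Pool.Agent.R819.SC

/-!
# A compact convex set of scatteredly continuous functions whose weight exceeds `nw (X)`

Let `I` be a set of cardinality `𝔠` and let `X` be the set of all functions `I → {0,1}` with the
topology in which the sets of all functions with prescribed values on a countable subset of `I`
form a base. This base has `𝔠` elements, so `nw (X) ≤ 𝔠`, and `X` has `2^𝔠` points. Every countable
set of points is closed and discrete, so every function with countable support is scatteredly
continuous. Let `K` be the set of all nonnegative functions `f` on `X` with `∑ f ≤ 1`. It is compact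
and convex, and it contains the discrete subspace of all characteristic functions of points, so
its weight is at least `2^𝔠`.
-/

set_option autoImplicit false

open Set Topology Filter TopologicalSpace Cardinal

namespace Pool.Agent.Results.MP_3f847c_gt.WeightExceedsNetwork

open Pool.Agent.R819.SC

universe u

/-- `N` is a network of `Z` -/
def IsNetwork {Z : Type u} [TopologicalSpace Z] (N : Set (Set Z)) : Prop :=
  ∀ (z : Z) (U : Set Z), IsOpen U → z ∈ U → ∃ n ∈ N, z ∈ n ∧ n ⊆ U

/-- the network weight of `Z` -/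
noncomputable def netWeight (Z : Type u) [TopologicalSpace Z] : Cardinal.{u} :=
  max ℵ₀ (sInf {κ | ∃ N : Set (Set Z), IsNetwork N ∧ #N = κ})

/-- the weight of `Z` -/
noncomputable def weight (Z : Type u) [TopologicalSpace Z] : Cardinal.{u} :=
  max ℵ₀ (sInf {κ | ∃ B : Set (Set Z), IsTopologicalBasis B ∧ #B = κ})

/-- a set of cardinality `𝔠` -/
abbrev I : Type := ℕ → ℕ

/-- the underlying set of the space `X` -/
def X : Type := I → Bool

/-- the set of all points with the prescribed values `b n` at the coordinates `c n` -/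
def box (c : ℕ → I) (b : ℕ → Bool) : Set X := {y | ∀ n, y (c n) = b n}

/-- the topology of `X`: a set `U` is open if for each `x ∈ U` there is a countable set of
coordinates such that `U` contains all points which agree with `x` there -/
instance : TopologicalSpace X where
  IsOpen U := ∀ x ∈ U, ∃ c : ℕ → I, box c (fun n => x (c n)) ⊆ U
  isOpen_univ := fun _ _ => ⟨fun _ => 0, subset_univ _⟩
  isOpen_inter := by
    rintro U V hU hV x ⟨hxU, hxV⟩
    obtain ⟨c, hc⟩ := hU x hxU
    obtain ⟨d, hd⟩ := hV x hxV
    refine ⟨fun n => if n % 2 = 0 then c (n / 2) else d (n / 2), fun y hy => ⟨hc ?_, hd ?_⟩⟩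
    · intro n
      have h := hy (2 * n)
      have h1 : 2 * n % 2 = 0 := by omega
      have h2 : 2 * n / 2 = n := by omega
      simpa [h1, h2] using h
    · intro n
      have h := hy (2 * n + 1)
      have h1 : (2 * n + 1) % 2 = 1 := by omega
      have h2 : (2 * n + 1) / 2 = n := by omega
      simpa [h1, h2] using h
  isOpen_sUnion := by
    rintro S hS x ⟨U, hU, hxU⟩
    obtain ⟨c, hc⟩ := hS U hU x hxU
    exact ⟨c, hc.trans (subset_sUnion_of_mem hU)⟩

theorem isOpen_box (c : ℕ → I) (b : ℕ → Bool) : IsOpen (box c b) := by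
  intro x hx
  refine ⟨c, fun y hy n => ?_⟩
  rw [hy n]
  exact hx n

theorem nw_le : netWeight X ≤ 𝔠 := by
  refine max_le aleph0_le_continuum ?_
  let N : Set (Set X) := range fun p : (ℕ → I) × (ℕ → Bool) => box p.1 p.2
  have hN : IsNetwork N := by
    intro x U hU hx
    obtain ⟨c, hc⟩ := hU x hx
    exact ⟨box c (fun n => x (c n)), ⟨(c, _), rfl⟩, fun _ => rfl, hc⟩
  have h1 : #N ≤ 𝔠 := by
    refine mk_range_le.trans ?_
    simp [I]
  have h2 : sInf {κ | ∃ N : Set (Set X), IsNetwork N ∧ #N = κ} ≤ #N := csInf_le' ⟨N, hN, rfl⟩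
  exact h2.trans h1

/-- a point has a neighbourhood which contains no other point of a given countable set -/
theorem exists_nhd (S : Set X) (hS : S.Countable) (a : X) :
    ∃ U : Set X, IsOpen U ∧ a ∈ U ∧ ∀ y ∈ U, y ∈ S → y = a := by
  rcases S.eq_empty_or_nonempty with rfl | hne
  · exact ⟨univ, isOpen_univ, mem_univ a, fun y _ h => absurd h (notMem_empty y)⟩
  · obtain ⟨s, hs⟩ := hS.exists_eq_range hne
    have h1 : ∀ n, ∃ i : I, s n ≠ a → s n i ≠ a i := by
      intro n
      by_cases h : s n = a
      · exact ⟨0, fun h' => absurd h h'⟩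
      · obtain ⟨i, hi⟩ := Function.ne_iff.1 h
        exact ⟨i, fun _ => hi⟩
    choose c hc using h1
    refine ⟨box c (fun n => a (c n)), isOpen_box _ _, fun _ => rfl, fun y hy hyS => ?_⟩
    rw [hs] at hyS
    obtain ⟨n, rfl⟩ := hyS
    by_contra h
    exact hc n h (hy n)

theorem scat {f : X → ℝ} (hf : f ∈ Sig X) : ScatCont f := by
  intro A hA
  have hS := countable_supp hf
  by_cases hex : ∃ a ∈ A, f a = 0
  · obtain ⟨a, ha, ha0⟩ := hex
    obtain ⟨U, hU, haU, h⟩ := exists_nhd _ hS a
    refine ⟨a, ha, cwa U hU haU fun y _ hyU => ?_⟩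
    by_cases hy : f y = 0
    · rw [hy, ha0]
    · rw [h y hyU hy]
  · push Not at hex
    obtain ⟨a, ha⟩ := hA
    obtain ⟨U, hU, haU, h⟩ := exists_nhd _ hS a
    refine ⟨a, ha, cwa U hU haU fun y hyA hyU => ?_⟩
    rw [h y hyU (hex y hyA)]

theorem le_weight : (2 : Cardinal) ^ 𝔠 ≤ weight (Sig X) := by
  refine le_max_of_le_right (le_csInf ⟨_, _, isTopologicalBasis_opens, rfl⟩ ?_)
  rintro κ ⟨B, hB, rfl⟩
  obtain ⟨b, hb⟩ := card_base B hB
  have h1 : #X ≤ #B := mk_le_of_injective hb
  have h2 : #X = 2 ^ 𝔠 := by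
    unfold X
    simp [I]
  rwa [h2] at h1

/-- **There are a topological space `X` and a compact convex set `K ⊆ SC_p (X)` with
`w (K) > nw (X)`.** -/
theorem result : ∃ (X : Type) (_ : TopologicalSpace X) (K : Set (X → ℝ)),
    IsCompact K ∧ Convex ℝ K ∧ (∀ f ∈ K, ScatCont f) ∧ netWeight X < weight K :=
  ⟨X, inferInstance, Sig X, isCompact_sig, convex_sig, fun _ hf => scat hf,
    nw_le.trans_lt ((cantor 𝔠).trans_le le_weight)⟩

end Pool.Agent.Results.MP_3f847c_gt.WeightExceedsNetwork
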